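import Pool.Agent.Lib.MP_0e3b4a_gt.H76.Basic

/-! # LIMS: elements of the local spans -/

set_option autoImplicit false

namespace Pool.Agent.CutLoci.H76

open MeasureTheory Set Filter Topology

variable {g : Type} [NormedAddCommGroup g] [NormedSpace ℝ g] [FiniteDimensional ℝ g] {r : ℕ}

theorem left_ev {t η : ℝ} (ht : t ∈ Ioo (0 : ℝ) 1) (hη : 0 < η) :
    ∀ᶠ s in 𝓝[<] t, s ∈ Ioo (t - η) t ∩ Icc 0 1 := by
  have h : Ioo (max (t - η) 0) t ∈ 𝓝[<] t :=
    Ioo_mem_nhdsLT (max_lt (by linarith) ht.1)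
  filter_upwards [h] with s hs
  have h1 := (max_lt_iff.1 hs.1)
  exact ⟨⟨h1.1, hs.2⟩, h1.2.le, (hs.2.trans ht.2).le⟩

theorem right_ev {t η : ℝ} (ht : t ∈ Ioo (0 : ℝ) 1) (hη : 0 < η) :
    ∀ᶠ s in 𝓝[>] t, s ∈ Ioo t (t + η) ∩ Icc 0 1 := by
  have h : Ioo t (min (t + η) 1) ∈ 𝓝[>] t :=
    Ioo_mem_nhdsGT (lt_min (by linarith) ht.2)
  filter_upwards [h] with s hs
  have h1 := (lt_min_iff.1 hs.2)
  exact ⟨⟨hs.1, h1.1⟩, (ht.1.trans hs.1).le, h1.2.le⟩

/-- Limits of `Ad_s c` are in the local spans. -/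
theorem lims_one (C : Carnot g r) (u : ℝ → EE r) (hc : ContinuousOn (C.Ad u) (Icc 0 1))
    {t : ℝ} (ht : t ∈ Ioo (0 : ℝ) 1) (c : EE r) :
    C.Ad u t (C.X c) ∈ leftS C u t ⊓ rightS C u t := by
  have hca : ContinuousAt (C.Ad u) t := hc.continuousAt (Icc_mem_nhds ht.1 ht.2)
  have hcb : Tendsto (fun s => C.Ad u s (C.X c)) (𝓝 t) (𝓝 (C.Ad u t (C.X c))) :=
    (hca.clm_apply continuousAt_const).tendsto
  constructor
  · simp only [leftS, SetLike.mem_coe, Submodule.mem_iInf]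
    rintro ⟨η, hη⟩
    refine mem_of_lim _ (hcb.mono_left (nhdsWithin_le_nhds (s := Iio t))) ?_
    filter_upwards [left_ev ht hη] with s hs
    exact Submodule.subset_span ⟨s, hs, c, rfl⟩
  · simp only [rightS, SetLike.mem_coe, Submodule.mem_iInf]
    rintro ⟨η, hη⟩
    refine mem_of_lim _ (hcb.mono_left (nhdsWithin_le_nhds (s := Ioi t))) ?_
    filter_upwards [right_ev ht hη] with s hs
    exact Submodule.subset_span ⟨s, hs, c, rfl⟩

/-- Derivatives of `Ad_s c` are in the local spans. -/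
theorem lims_two (C : Carnot g r) (u : ℝ → EE r) {t : ℝ} (ht : t ∈ Ioo (0 : ℝ) 1) (c : EE r)
    {z : g} (hd : HasDerivAt (fun s => C.Ad u s (C.X c)) z t) :
    z ∈ leftS C u t ⊓ rightS C u t := by
  constructor
  · simp only [leftS, SetLike.mem_coe, Submodule.mem_iInf]
    rintro ⟨η, hη⟩
    refine mem_of_deriv _ (l := 𝓝[<] t) (nhdsWithin_mono t fun x hx => ne_of_lt hx) hd ?_
    filter_upwards [left_ev ht hη] with s hs
    exact Submodule.subset_span ⟨s, hs, c, rfl⟩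
  · simp only [rightS, SetLike.mem_coe, Submodule.mem_iInf]
    rintro ⟨η, hη⟩
    refine mem_of_deriv _ (l := 𝓝[>] t) (nhdsWithin_mono t fun x hx => ne_of_gt hx) hd ?_
    filter_upwards [right_ev ht hη] with s hs
    exact Submodule.subset_span ⟨s, hs, c, rfl⟩

variable (g r)

theorem lims (hS : StrucStatement g r) : LimsStatement g r := by
  intro C u
  obtain ⟨-, hAc, hst⟩ := hS C u (ctl_int u)
  refine ⟨fun t ht c => lims_one C u hAc ht c, ?_⟩
  have key : ∀ c : EE r, ∀ᵐ t ∂(volume.restrict (Ioc (0 : ℝ) 1)),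
      C.Ad u t (C.br (C.X (u t)) (C.X c)) ∈ leftS C u t ⊓ rightS C u t := by
    intro c
    have hint : IntegrableOn (fun s => C.Ad u s (C.br (C.X (u s)) (C.X c))) (Ioc 0 1) :=
      int_bilin (ContinuousLinearMap.id ℝ (g →L[ℝ] g)) hAc
        (((C.br.flip (C.X c)).comp C.X).integrable_comp (ctl_int u))
    have hii := ii_of_int hint (left_mem_Icc.2 zero_le_one) (right_mem_Icc.2 zero_le_one)
    have hae := hii.ae_hasDerivAt_integral
    have h1 : ∀ᵐ t : ℝ ∂volume, t ≠ 1 := by simp [ae_iff, measure_singleton]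
    rw [ae_restrict_iff' measurableSet_Ioc]
    filter_upwards [hae, h1] with t h ht1 ht
    have ht' : t ∈ Ioo (0 : ℝ) 1 := ⟨ht.1, lt_of_le_of_ne ht.2 ht1⟩
    rw [uIcc_of_le (zero_le_one' ℝ)] at h
    have hd := h (Ioc_subset_Icc_self ht) 0 (left_mem_Icc.2 zero_le_one)
    refine lims_two C u ht' c ?_
    have hd2 : HasDerivAt (fun x => C.X c + ∫ s in (0 : ℝ)..x,
        C.Ad u s (C.br (C.X (u s)) (C.X c))) (C.Ad u t (C.br (C.X (u t)) (C.X c))) t :=
      hd.const_add _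
    refine hd2.congr_of_eventuallyEq ?_
    filter_upwards [Icc_mem_nhds ht'.1 ht'.2] with x hx
    exact (hst x hx).2.2.2.1 (C.X c)
  have key2 : ∀ᵐ t ∂(volume.restrict (Ioc (0 : ℝ) 1)), ∀ i : Fin r,
      C.Ad u t (C.br (C.X (u t)) (C.X (EuclideanSpace.basisFun (Fin r) ℝ i))) ∈
        leftS C u t ⊓ rightS C u t := by
    rw [ae_all_iff]
    intro i
    exact key _
  filter_upwards [key2] with t ht c
  have hsum := (EuclideanSpace.basisFun (Fin r) ℝ).sum_repr c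
  rw [← hsum]
  simp only [map_sum, map_smul]
  exact Submodule.sum_mem _ fun i _ => Submodule.smul_mem _ _ (ht i)

end Pool.Agent.CutLoci.H76
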