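import Pool.Agent.Lib.MP_0e3b4a_gt.H76.Basic

/-! # LOCA: the second variation near a good time -/

set_option autoImplicit false

namespace Pool.Agent.CutLoci.H76

open MeasureTheory Set Filter Topology

variable {g : Type} [NormedAddCommGroup g] [NormedSpace ℝ g] [FiniteDimensional ℝ g] {r : ℕ}

/-- A monotone family of subspaces indexed by `(0, ε)` attains its infimum. -/
theorem inf_attained (S : ℝ → Submodule ℝ g) (ε : ℝ) (hε : 0 < ε)
    (hS : ∀ a b, 0 < a → a ≤ b → S a ≤ S b) :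
    ∃ η, 0 < η ∧ η < ε ∧ ∀ η', 0 < η' → S η ≤ S η' := by
  obtain ⟨M, ⟨η, hη, rfl⟩, hmin⟩ := (wellFounded_lt :
    WellFounded ((· < ·) : Submodule ℝ g → Submodule ℝ g → Prop)).has_min (S '' Ioo 0 ε)
      ⟨S (ε / 2), ε / 2, ⟨by linarith, by linarith⟩, rfl⟩
  refine ⟨η, hη.1, hη.2, fun η' hη' => ?_⟩
  have h1 : S (min η η') ≤ S η := hS _ _ (lt_min hη.1 hη') (min_le_left _ _)
  have h2 := hmin (S (min η η')) ⟨min η η', ⟨lt_min hη.1 hη', (min_le_left _ _).trans_lt hη.2⟩, rfl⟩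
  have h3 : S (min η η') = S η := by
    by_contra hne
    exact h2 (lt_of_le_of_ne h1 hne)
  rw [← h3]
  exact hS _ _ (lt_min hη.1 hη') (min_le_right _ _)

/-- An antitone family of subspaces indexed by `(0, ε)` attains its supremum. -/
theorem sup_attained (S : ℝ → Submodule ℝ g) (ε : ℝ) (hε : 0 < ε)
    (hS : ∀ a b, 0 < a → a ≤ b → S b ≤ S a) :
    ∃ η, 0 < η ∧ η < ε ∧ ∀ η', 0 < η' → S η' ≤ S η := by
  obtain ⟨M, ⟨η, hη, rfl⟩, hmin⟩ := (wellFounded_gt :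
    WellFounded ((· > ·) : Submodule ℝ g → Submodule ℝ g → Prop)).has_min (S '' Ioo 0 ε)
      ⟨S (ε / 2), ε / 2, ⟨by linarith, by linarith⟩, rfl⟩
  refine ⟨η, hη.1, hη.2, fun η' hη' => ?_⟩
  have h1 : S η ≤ S (min η η') := hS _ _ (lt_min hη.1 hη') (min_le_left _ _)
  have h2 := hmin (S (min η η')) ⟨min η η', ⟨lt_min hη.1 hη', (min_le_left _ _).trans_lt hη.2⟩, rfl⟩
  have h3 : S (min η η') = S η := by
    by_contra hne
    exact h2 (lt_of_le_of_ne h1 (Ne.symm hne))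
  rw [← h3]
  exact hS _ _ (lt_min hη.1 hη') (min_le_right _ _)

/-- Controls supported in an interval. -/
def suppSub (r : ℕ) (a b : ℝ) : Submodule ℝ (Ctl r) where
  carrier := {x | SuppIn x a b}
  add_mem' := by
    intro x y hx hy
    simp only [mem_ofPred_eq, SuppIn] at hx hy ⊢
    filter_upwards [hx, hy, Lp.coeFn_add x y] with t h1 h2 h3 ht
    rw [h3, Pi.add_apply, h1 ht, h2 ht, add_zero]
  zero_mem' := by
    simp only [mem_ofPred_eq, SuppIn]
    filter_upwards [Lp.coeFn_zero (EE r) 2 (volume.restrict (Ioc (0 : ℝ) 1))] with t h1 _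
    rw [h1]; rfl
  smul_mem' := by
    intro c x hx
    simp only [mem_ofPred_eq, SuppIn] at hx ⊢
    filter_upwards [hx, Lp.coeFn_smul c x] with t h1 h2 ht
    rw [h2, Pi.smul_apply, h1 ht, smul_zero]

theorem mem_suppSub {a b : ℝ} {x : Ctl r} : x ∈ suppSub r a b ↔ SuppIn x a b := Iff.rfl

/-- The first variations of controls supported in an interval are the local span. -/
theorem exists_var (hR : RangeStatement g r) (hB : BiliStatement g r) (C : Carnot g r)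
    (u : Ctl r) {a b : ℝ} (ha : 0 ≤ a) (hab : a < b) (hb : b ≤ 1) {y : g}
    (hy : y ∈ Submodule.span ℝ {z | ∃ s ∈ Icc a b, ∃ c, z = C.Ad u s (C.X c)}) :
    ∃ x : Ctl r, SuppIn x a b ∧ C.W u x 1 = y := by
  obtain ⟨⟨L, hL⟩, -⟩ := hB C u
  have h1 : (1 : ℝ) ∈ Icc (0 : ℝ) 1 := right_mem_Icc.2 zero_le_one
  by_contra hno
  have hnot : y ∉ (suppSub r a b).map (L 1).toLinearMap := by
    rintro ⟨x, hx, hxy⟩
    refine hno ⟨x, hx, ?_⟩
    rw [← hL 1 h1 x]; exact hxy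
  obtain ⟨f, hf1, hf2⟩ := Submodule.exists_dual_map_eq_bot_of_notMem hnot inferInstance
  have hfx : ∀ x : Ctl r, SuppIn x a b → f (C.W u x 1) = 0 := by
    intro x hx
    have : f (C.W u x 1) ∈ ((suppSub r a b).map (L 1).toLinearMap).map f :=
      ⟨C.W u x 1, ⟨x, hx, hL 1 h1 x⟩, rfl⟩
    rw [hf2] at this
    exact (Submodule.mem_bot ℝ).1 this
  have h2 := (hR C u (LinearMap.toContinuousLinearMap f) a b ha hab hb).1 fun x hx => hfx x hx
  apply hf1
  have hle : Submodule.span ℝ {z | ∃ s ∈ Icc a b, ∃ c, z = C.Ad u s (C.X c)} ≤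
      LinearMap.ker f := by
    rw [Submodule.span_le]
    rintro z ⟨s, hs, c, rfl⟩
    exact h2 s hs c
  exact hle hy

/-- `W` vanishes before the support. -/
theorem W_before (C : Carnot g r) (u : ℝ → EE r) (x : Ctl r) {a b s : ℝ} (hx : SuppIn x a b)
    (hs0 : 0 ≤ s) (hs1 : s ≤ 1) (hs : s ≤ a) : C.W u x s = 0 := by
  rw [Carnot.W]
  have : ∀ᵐ p ∂volume, p ∈ uIoc 0 s → C.Ad u p (C.X (x p)) = (0 : g) := by
    have hx' := (ae_restrict_iff' measurableSet_Ioc).1 hx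
    filter_upwards [hx'] with p hp hps
    rw [uIoc_of_le hs0] at hps
    rw [hp ⟨hps.1, hps.2.trans hs1⟩ (fun h => absurd (hps.2.trans hs) (not_le.2 h.1))]
    simp
  rw [intervalIntegral.integral_congr_ae this]
  simp

/-- `W` is constant after the support. -/
theorem W_after (C : Carnot g r) (u : ℝ → EE r) (hAc : ContinuousOn (C.Ad u) (Icc 0 1))
    (x : Ctl r) {a b s : ℝ} (hx : SuppIn x a b)
    (hs0 : 0 ≤ s) (hs1 : s ≤ 1) (hs : b ≤ s) : C.W u x 1 = C.W u x s := by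
  have hint : IntegrableOn (fun p => C.Ad u p (C.X (x p))) (Ioc 0 1) :=
    int_bilin (ContinuousLinearMap.id ℝ (g →L[ℝ] g)) hAc (C.X.integrable_comp (ctl_int x))
  rw [Carnot.W, Carnot.W, ← intervalIntegral.integral_add_adjacent_intervals
    (ii_of_int hint (left_mem_Icc.2 zero_le_one) ⟨hs0, hs1⟩)
    (ii_of_int hint ⟨hs0, hs1⟩ (right_mem_Icc.2 zero_le_one))]
  have : ∀ᵐ p ∂volume, p ∈ uIoc s 1 → C.Ad u p (C.X (x p)) = (0 : g) := by
    have hx' := (ae_restrict_iff' measurableSet_Ioc).1 hx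
    filter_upwards [hx'] with p hp hps
    rw [uIoc_of_le hs1] at hps
    rw [hp ⟨hs0.trans_lt hps.1, hps.2⟩ (fun h => absurd (hs.trans_lt hps.1) (not_lt.2 h.2.le))]
    simp
  rw [intervalIntegral.integral_congr_ae this]
  simp

variable (g r)

theorem loca (hM : MultStatement g r) (hR : RangeStatement g r) (hB : BiliStatement g r)
    (hS : StrucStatement g r) (hL : LimsStatement g r) : LocaStatement g r := by
  intro C u l t ⟨ε, hε0, hεt, hεt1, hQ⟩ y hy c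
  have ht : t ∈ Ioo (0 : ℝ) 1 := ⟨by linarith, by linarith⟩
  obtain ⟨-, hAc, -⟩ := hS C u (ctl_int u)
  obtain ⟨⟨L, hL'⟩, -⟩ := hB C u
  set S : ℝ → Submodule ℝ g := fun η => Submodule.span ℝ
    {z | ∃ s ∈ Ioo (t - η) t ∩ Icc 0 1, ∃ a, z = C.Ad u s (C.X a)} with hSdef
  have hSle : ∀ η, 0 < η → leftS C u t ≤ S η := by
    intro η hη
    exact iInf_le (fun η : {η : ℝ // 0 < η} => Submodule.span ℝ
      {z | ∃ s ∈ Ioo (t - (η : ℝ)) t ∩ Icc 0 1, ∃ a, z = C.Ad u s (C.X a)}) ⟨η, hη⟩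
  obtain ⟨η, hη0, hηε, hηmin⟩ := inf_attained S ε hε0 (by
    intro a b _ hab
    apply Submodule.span_mono
    rintro z ⟨s, hs, a', rfl⟩
    exact ⟨s, ⟨⟨by linarith [hs.1.1], hs.1.2⟩, hs.2⟩, a', rfl⟩)
  set T : ℝ → Submodule ℝ g := fun η' => Submodule.span ℝ
    {z | ∃ s ∈ Ioo (t - η) (t - η') ∩ Icc 0 1, ∃ a, z = C.Ad u s (C.X a)} with hTdef
  obtain ⟨η', hη'0, hη'η, hη'max⟩ := sup_attained T η hη0 (by
    intro a b _ hab
    apply Submodule.span_mono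
    rintro z ⟨s, hs, a', rfl⟩
    exact ⟨s, ⟨⟨hs.1.1, by linarith [hs.1.2]⟩, hs.2⟩, a', rfl⟩)
  have hST : S η ≤ T η' := by
    rw [hSdef]
    simp only
    rw [Submodule.span_le]
    rintro z ⟨s, hs, a', rfl⟩
    refine hη'max ((t - s) / 2) (by linarith [hs.1.2]) ?_
    exact Submodule.subset_span ⟨s, ⟨⟨hs.1.1, by linarith [hs.1.2]⟩, hs.2⟩, a', rfl⟩
  -- the control
  have hy1 : y ∈ Submodule.span ℝ {z | ∃ s ∈ Icc (t - η') t, ∃ c, z = C.Ad u s (C.X c)} := by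
    refine Submodule.span_mono ?_ (hSle η' hη'0 hy.1)
    rintro z ⟨s, hs, a', rfl⟩
    exact ⟨s, ⟨hs.1.1.le, hs.1.2.le⟩, a', rfl⟩
  have hy2 : y ∈ Submodule.span ℝ {z | ∃ s ∈ Icc t (t + η'), ∃ c, z = C.Ad u s (C.X c)} := by
    have h3 : rightS C u t ≤ Submodule.span ℝ
        {z | ∃ s ∈ Ioo t (t + η') ∩ Icc 0 1, ∃ a, z = C.Ad u s (C.X a)} :=
      iInf_le (fun η : {η : ℝ // 0 < η} => Submodule.span ℝ
        {z | ∃ s ∈ Ioo t (t + (η : ℝ)) ∩ Icc 0 1, ∃ a, z = C.Ad u s (C.X a)}) ⟨η', hη'0⟩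
    refine Submodule.span_mono ?_ (h3 hy.2)
    rintro z ⟨s, hs, a', rfl⟩
    exact ⟨s, ⟨hs.1.1.le, hs.1.2.le⟩, a', rfl⟩
  obtain ⟨x1, hx1, hW1⟩ := exists_var hR hB C u (by linarith) (by linarith) (by linarith) hy1
  obtain ⟨x2, hx2, hW2⟩ := exists_var hR hB C u (by linarith) (by linarith) (by linarith) hy2
  have hx1' : x1 ∈ suppSub r (t - η') (t + η') := by
    rw [mem_suppSub]
    exact hx1.mono fun p hp h => hp fun h' => h ⟨h'.1, by linarith [h'.2]⟩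
  have hx2' : x2 ∈ suppSub r (t - η') (t + η') := by
    rw [mem_suppSub]
    exact hx2.mono fun p hp h => hp fun h' => h ⟨by linarith [h'.1], h'.2⟩
  have hx : SuppIn (x1 - x2 : Ctl r) (t - η') (t + η') := (suppSub r _ _).sub_mem hx1' hx2'
  have hWsub : ∀ s ∈ Icc (0 : ℝ) 1, C.W u (x1 - x2 : Ctl r) s = C.W u x1 s - C.W u x2 s := by
    intro s hs
    rw [← hL' s hs, ← hL' s hs, ← hL' s hs, map_sub]
  have hK : C.Ker u (x1 - x2 : Ctl r) := by
    rw [Carnot.Ker, hWsub 1 (right_mem_Icc.2 zero_le_one), hW1, hW2, sub_self]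
  have hWt : C.W u (x1 - x2 : Ctl r) t = y := by
    rw [hWsub t ⟨ht.1.le, ht.2.le⟩, ← W_after C u hAc x1 hx1 ht.1.le ht.2.le le_rfl, hW1,
      W_before C u x2 hx2 ht.1.le ht.2.le le_rfl, sub_zero]
  have hxε : SuppIn (x1 - x2 : Ctl r) (t - ε) (t + ε) :=
    hx.mono fun p hp h => hp fun h' => h ⟨by linarith [h'.1], by linarith [h'.2]⟩
  obtain ⟨m, hm⟩ := hM C u l (t - ε) (t + ε) (by linarith) (by linarith) (by linarith)
    (x1 - x2) hK hxε fun y' hy' hy'' => hQ (x1 - x2) y' hK hy' hxε hy''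
  have hm0 : T η' ≤ LinearMap.ker m.toLinearMap := by
    rw [hTdef]
    simp only
    rw [Submodule.span_le]
    rintro z ⟨s, hs, a', rfl⟩
    have h5 := hm s ⟨by linarith [hs.1.1], by linarith [hs.1.2]⟩ a'
    rw [W_before C u _ hx hs.2.1 hs.2.2 hs.1.2.le] at h5
    simp only [map_zero, zero_apply] at h5
    exact h5.symm
  have hmt : m (C.Ad u t (C.X c)) = 0 :=
    (hST.trans hm0) ((hSle η hη0) (((hL C u).1 t ht c).1))
  have h6 := hm t ⟨by linarith, by linarith⟩ c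
  rw [hWt, hmt] at h6
  exact h6

end Pool.Agent.CutLoci.H76
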