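import Pool.Agent.Lib.MP_0e3b4a_gt.Iface

/-! # Small tools: integrability of controls, bilinear integrands, local spans -/

set_option autoImplicit false

namespace Pool.Agent.CutLoci.H76

open MeasureTheory Set Filter Topology

/-- Controls are integrable. -/
theorem ctl_int {r : ℕ} (u : Ctl r) : IntegrableOn (fun t => u t) (Ioc (0 : ℝ) 1) :=
  (Lp.memLp u).integrable (by norm_num)

/-- Bilinear integrands: continuous times integrable. -/
theorem int_bilin {E F G : Type} [NormedAddCommGroup E] [NormedSpace ℝ E]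
    [NormedAddCommGroup F] [NormedSpace ℝ F] [NormedAddCommGroup G] [NormedSpace ℝ G]
    (B : E →L[ℝ] F →L[ℝ] G) {x : ℝ → E} {y : ℝ → F} (hx : ContinuousOn x (Icc 0 1))
    (hy : IntegrableOn y (Ioc 0 1)) : IntegrableOn (fun t => B (x t) (y t)) (Ioc 0 1) := by
  obtain ⟨C, hC⟩ := isCompact_Icc.exists_bound_of_continuousOn hx
  apply B.integrable_of_bilin_of_bdd_left C
  · exact (hx.mono Ioc_subset_Icc_self).aestronglyMeasurable measurableSet_Ioc
  · filter_upwards [ae_restrict_mem measurableSet_Ioc] with t ht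
      using hC t (Ioc_subset_Icc_self ht)
  · exact hy

/-- On `Ioc 0 1` integrability is interval integrability of all subintervals. -/
theorem ii_of_int {G : Type} [NormedAddCommGroup G] {f : ℝ → G}
    (hf : IntegrableOn f (Ioc (0 : ℝ) 1)) {a b : ℝ} (ha : a ∈ Icc (0 : ℝ) 1)
    (hb : b ∈ Icc (0 : ℝ) 1) : IntervalIntegrable f volume a b := by
  have h : IntervalIntegrable f volume 0 1 :=
    (intervalIntegrable_iff_integrableOn_Ioc_of_le zero_le_one).2 hf
  refine h.mono_set ?_
  rw [uIcc_of_le (zero_le_one' ℝ)]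
  exact uIcc_subset_Icc ha hb

section

variable {g : Type} [NormedAddCommGroup g] [NormedSpace ℝ g] [FiniteDimensional ℝ g]

/-- A subspace contains limits. -/
theorem mem_of_lim (M : Submodule ℝ g) {l : Filter ℝ} [l.NeBot] {f : ℝ → g} {z : g}
    (hf : Tendsto f l (𝓝 z)) (h : ∀ᶠ s in l, f s ∈ M) : z ∈ M :=
  (Submodule.closed_of_finiteDimensional M).mem_of_tendsto hf h

/-- A subspace contains derivatives. -/
theorem mem_of_deriv (M : Submodule ℝ g) {l : Filter ℝ} [l.NeBot] {f : ℝ → g} {z : g} {t : ℝ}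
    (hl : l ≤ 𝓝[≠] t) (hf : HasDerivAt f z t) (h : ∀ᶠ s in l, f s ∈ M) : z ∈ M := by
  have hl' : l ≤ 𝓝 t := hl.trans nhdsWithin_le_nhds
  have ht : f t ∈ M := mem_of_lim M (hf.continuousAt.tendsto.mono_left hl') h
  rw [hasDerivAt_iff_tendsto_slope] at hf
  refine mem_of_lim M (hf.mono_left hl) ?_
  filter_upwards [h] with s hs
  rw [slope_def_module]
  exact M.smul_mem _ (M.sub_mem hs ht)

end

end Pool.Agent.CutLoci.H76
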